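import Pool.Agent.Helper40.RGC.Fam

/-!
# Radio graceful cages of girth 6

If `r` or `r + 1` is a prime power (and `r ≥ 11` resp. `r ≥ 25`), every radio graceful
`(r, 6)`-cage is a Moore graph.
-/

set_option autoImplicit false

namespace Pool.Agent.Results.MP_407bea_co.GirthSix

open Finset

/-- A radio labelling: labels in `{1, 2, 3, ...}` with `|f u - f v| ≥ diam + 1 - d(u, v)` for all
distinct `u`, `v`. -/
def IsRadioLabelling {V : Type} (G : SimpleGraph V) (f : V → ℕ) : Prop :=
  (∀ v, 1 ≤ f v) ∧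
    ∀ u v, u ≠ v → (G.diam : ℤ) + 1 - (G.dist u v : ℤ) ≤ |(f u : ℤ) - (f v : ℤ)|

/-- The radio number: the least possible value of the largest label. -/
noncomputable def rn {V : Type} (G : SimpleGraph V) : ℕ :=
  sInf {m | ∃ f : V → ℕ, IsRadioLabelling G f ∧ ∀ v, f v ≤ m}

/-- Radio graceful: the radio number is the number of vertices. -/
def RadioGraceful {V : Type} [Fintype V] (G : SimpleGraph V) : Prop :=
  rn G = Fintype.card V

/-- Connected, `r`-regular, of girth `g`. -/
structure IsRG {V : Type} (G : SimpleGraph V) (r g : ℕ) : Prop where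
  conn : G.Connected
  reg : ∀ v, (G.neighborSet v).ncard = r
  girth : G.girth = g

/-- An `(r, g)`-cage: a connected `r`-regular graph of girth `g` with the least number of
vertices. -/
structure IsCage {V : Type} [Fintype V] (G : SimpleGraph V) (r g : ℕ) : Prop where
  rg : IsRG G r g
  least : ∀ (W : Type) [Fintype W] (H : SimpleGraph W), IsRG H r g →
    Fintype.card V ≤ Fintype.card W

/-- A Moore graph of degree `r` and even girth `g`: `r`-regular of girth `g`, the number of
vertices is the Moore bound `2 (1 + (r - 1) + ... + (r - 1) ^ ((g - 2) / 2))`. -/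
structure IsMooreEven {V : Type} [Fintype V] (G : SimpleGraph V) (r g : ℕ) : Prop where
  rg : IsRG G r g
  card : Fintype.card V = 2 * ∑ i ∈ range ((g - 2) / 2 + 1), (r - 1) ^ i

open Pool.Agent.Helper40

private theorem rg_of_ncard {V : Type} [Fintype V] {G : SimpleGraph V} {r : ℕ}
    (h : ∀ v, (G.neighborSet v).ncard = r) : RGC.Rg G r := by
  classical
  intro v
  rw [← h v, Set.ncard_eq_toFinset_card']
  congr 1
  ext u
  rw [RGC.mem_NN]
  simp

private theorem ncard_of_rg {V : Type} [Fintype V] {G : SimpleGraph V} {r : ℕ}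
    (h : RGC.Rg G r) : ∀ v, (G.neighborSet v).ncard = r := by
  classical
  intro v
  rw [← h v, Set.ncard_eq_toFinset_card']
  congr 1
  ext u
  rw [RGC.mem_NN]
  simp

private theorem radio {V : Type} [Fintype V] {G : SimpleGraph V} (hne : Nonempty V)
    (h : RadioGraceful G) : RGC.RadioGraceful G := by
  unfold RadioGraceful rn at h
  have h0 : 0 < Fintype.card V := Fintype.card_pos
  have hS : {m | ∃ f : V → ℕ, IsRadioLabelling G f ∧ ∀ v, f v ≤ m}.Nonempty := by
    by_contra hcon
    rw [Set.not_nonempty_iff_eq_empty] at hcon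
    rw [hcon, Nat.sInf_empty] at h
    omega
  have h1 := Nat.sInf_mem hS
  rw [h] at h1
  obtain ⟨f, hf, hfm⟩ := h1
  refine ⟨f, fun v => ⟨hf.1 v, hfm v⟩, fun u v huv => ?_⟩
  have h2 := hf.2 u v huv
  have h3 : |(f u : ℤ) - (f v : ℤ)| = (Nat.dist (f u) (f v) : ℕ) := by
    unfold Nat.dist
    rcases le_total (f u) (f v) with h4 | h4
    · rw [abs_of_nonpos (by omega)]
      omega
    · rw [abs_of_nonneg (by omega)]
      omega
  rw [h3] at h2
  omega

private theorem exists_field {q : ℕ} (hq : IsPrimePow q) :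
    ∃ (K : Type) (_ : Field K) (_ : Fintype K), Fintype.card K = q := by
  obtain ⟨p, k, hp, hk, rfl⟩ := hq
  have : Fact p.Prime := ⟨hp.nat_prime⟩
  have hf : Finite (GaloisField p k) := by
    apply Nat.finite_of_card_ne_zero
    rw [GaloisField.card p k hk.ne']
    exact pow_ne_zero _ hp.nat_prime.ne_zero
  let ft : Fintype (GaloisField p k) := Fintype.ofFinite _
  refine ⟨GaloisField p k, inferInstance, ft, ?_⟩
  rw [← Nat.card_eq_fintype_card]
  exact GaloisField.card p k hk.ne'

private theorem girth_eq {V : Type} {G : SimpleGraph V} (h : G.egirth = 6) : G.girth = 6 := by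
  unfold SimpleGraph.girth
  rw [h]
  rfl

private theorem egirth_ge {V : Type} {G : SimpleGraph V} (h : G.girth = 6) : 6 ≤ G.egirth := by
  unfold SimpleGraph.girth at h
  have h1 : G.egirth ≠ ⊤ := by
    intro h2
    rw [h2] at h
    simp at h
  rw [← ENat.natCast_toNat h1, h]
  rfl

private theorem moore_of_small {r : ℕ} {V : Type} [Fintype V] {G : SimpleGraph V}
    (h2r : 2 ≤ r) (hG : IsRG G r 6) (hrg : RadioGraceful G)
    (h1 : 6 * Fintype.card V < 13 * (r * (r - 1) + 1))
    (h2 : Fintype.card V < 2 * (r * (r - 1) + 1 + 2 * r + 2)) : IsMooreEven G r 6 := by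
  have h3 := RGC.gap (RGC.c6_of_egirth (egirth_ge hG.girth)) hG.conn (rg_of_ncard hG.reg) h2r
    (radio hG.conn.nonempty hrg) h1 h2
  refine ⟨hG, ?_⟩
  rw [h3]
  obtain ⟨k, rfl⟩ : ∃ k, r = k + 1 := ⟨r - 1, by omega⟩
  simp only [Nat.add_sub_cancel, Finset.sum_range_succ, Finset.sum_range_zero]
  ring

/-- Let `r` be a prime power with `r ≥ 11`, or let `r + 1` be a prime power with `r ≥ 25`. Then
every radio graceful `(r, 6)`-cage is a Moore graph of girth 6. -/
theorem result (r : ℕ) (hr : (IsPrimePow r ∧ 11 ≤ r) ∨ (IsPrimePow (r + 1) ∧ 25 ≤ r))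
    (V : Type) [Fintype V] (G : SimpleGraph V) (hG : IsCage G r 6) (hrg : RadioGraceful G) :
    IsMooreEven G r 6 := by
  classical
  rcases hr with ⟨hq, hr⟩ | ⟨hq, hr⟩
  · obtain ⟨K, _, _, hK⟩ := exists_field hq
    have h1 : IsRG (RGC.GA K) r 6 :=
      ⟨RGC.ga_conn, ncard_of_rg (hK ▸ RGC.ga_reg), girth_eq RGC.ga_egirth⟩
    have h2 : Fintype.card V ≤ 2 * (r ^ 2 - 1) := by
      rw [← hK, ← RGC.ga_card, Nat.card_eq_fintype_card]
      exact hG.least _ _ h1
    obtain ⟨k, rfl⟩ : ∃ k, r = k + 11 := ⟨r - 11, by omega⟩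
    have h3 : 2 * ((k + 11) ^ 2 - 1) = 2 * k ^ 2 + 44 * k + 240 := by
      have : (k + 11) ^ 2 = k ^ 2 + 22 * k + 121 := by ring
      omega
    have h4 : (k + 11) * (k + 11 - 1) = k ^ 2 + 21 * k + 110 := by
      have : k + 11 - 1 = k + 10 := by omega
      rw [this]
      ring
    rw [h3] at h2
    refine moore_of_small (by omega) hG.rg hrg ?_ ?_ <;> rw [h4] <;> nlinarith
  · obtain ⟨K, _, _, hK⟩ := exists_field hq
    have h0 : 4 ≤ Fintype.card K := by omega
    have h1 : IsRG (RGC.GB K) r 6 :=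
      ⟨RGC.gb_conn h0, ncard_of_rg ((show Fintype.card K - 1 = r by omega) ▸ RGC.gb_reg),
        girth_eq (RGC.gb_egirth h0)⟩
    have h2 : Fintype.card V ≤ 2 * ((r + 1) * (r + 1 - 1)) := by
      rw [← hK, ← RGC.gb_card, Nat.card_eq_fintype_card]
      exact hG.least _ _ h1
    obtain ⟨k, rfl⟩ : ∃ k, r = k + 25 := ⟨r - 25, by omega⟩
    have h3 : 2 * ((k + 25 + 1) * (k + 25 + 1 - 1)) = 2 * k ^ 2 + 102 * k + 1300 := by
      have : k + 25 + 1 - 1 = k + 25 := by omega
      rw [this]
      ring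
    have h4 : (k + 25) * (k + 25 - 1) = k ^ 2 + 49 * k + 600 := by
      have : k + 25 - 1 = k + 24 := by omega
      rw [this]
      ring
    rw [h3] at h2
    refine moore_of_small (by omega) hG.rg hrg ?_ ?_ <;> rw [h4] <;> nlinarith

end Pool.Agent.Results.MP_407bea_co.GirthSix
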